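import Pool.Agent.Run7.h831.HS.Main

/-!
MP_d2fb05_co: a hemisystem of a generalized quadrangle of order `(9, 3)` whose strongly regular graph
has automorphisms which are not induced by collineations.
-/

set_option autoImplicit false

namespace Pool.Agent.Results.MP_d2fb05_co.NotAllInduced

/-- `I p l` means that the point `p` is on the line `l`: a generalized quadrangle of order
`(s ^ 2, s)`. -/
def IsGQ {P L : Type} (s : ℕ) (I : P → L → Prop) : Prop :=
  (∀ l, Nat.card {p // I p l} = s ^ 2 + 1) ∧ (∀ p, Nat.card {l // I p l} = s + 1) ∧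
  (∀ p q, p ≠ q → ∀ l m, I p l → I q l → I p m → I q m → l = m) ∧
  ∀ p l, ¬ I p l → ∃! q, I q l ∧ ∃ m, I p m ∧ I q m

/-- every point is on exactly `(s + 1) / 2` lines of `H` -/
def IsHemisystem {P L : Type} (s : ℕ) (I : P → L → Prop) (H : Set L) : Prop :=
  ∀ p, 2 * Nat.card {l // l ∈ H ∧ I p l} = s + 1

/-- the graph of a set `H` of lines: two distinct lines are adjacent when they meet in a point -/
def concurrency {P L : Type} (I : P → L → Prop) (H : Set L) : SimpleGraph H where
  Adj l m := l ≠ m ∧ ∃ p, I p l ∧ I p m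
  symm := ⟨fun _ _ h => ⟨h.1.symm, h.2.imp fun _ h => ⟨h.2, h.1⟩⟩⟩
  loopless := ⟨fun _ h => h.1 rfl⟩

/-- the automorphism `φ` of the graph of `H` is the restriction to `H` of a collineation (a
permutation `f` of the points and a permutation `g` of the lines which preserve incidence) fixing
`H` setwise -/
def Induced {P L : Type} (I : P → L → Prop) (H : Set L)
    (φ : concurrency I H ≃g concurrency I H) : Prop :=
  ∃ (f : P ≃ P) (g : L ≃ L), (∀ p l, I (f p) (g l) ↔ I p l) ∧ (∀ l, g l ∈ H ↔ l ∈ H) ∧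
    ∀ l : H, g l = φ l

/-- the assertion of the question -/
def Question : Prop :=
  ∀ s : ℕ, Odd s → ∀ (P L : Type) [Finite P] [Finite L] (I : P → L → Prop), IsGQ s I →
    ∀ H : Set L, IsHemisystem s I H → ∀ φ : concurrency I H ≃g concurrency I H, Induced I H φ

open Run7.h831.HS

theorem isGQ : IsGQ 3 Inc := by
  refine ⟨fun l => ?_, fun p => ?_, two_points, gq_axiom⟩
  · have h := card_cntB 280 (fun p => (mk p).testBit l)
    rw [c_ten] at h
    exact h
  · have h := card_cntB 112 (fun l => (mk p).testBit l)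
    rw [c_four] at h
    exact h

theorem isHemisystem : IsHemisystem 3 Inc HH := by
  intro p
  have h := card_cntB 112 (fun l => Hm.testBit l && (mk p).testBit l)
  rw [c_hemi] at h
  have e : Nat.card {l : Fin 112 // l ∈ HH ∧ Inc p l} = 2 := by
    rw [← h]
    apply Nat.card_congr
    apply Equiv.subtypeEquivRight
    intro l
    simp only [Bool.and_eq_true]
    rfl
  rw [e]

/-- the automorphism of the graph -/
noncomputable def phi : concurrency Inc HH ≃g concurrency Inc HH where
  toFun l := ⟨⟨sg l.1, (c_sg l.1 l.2).1⟩, (c_sg l.1 l.2).2.1⟩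
  invFun l := ⟨⟨si l.1, (c_si l.1 l.2).1⟩, (c_si l.1 l.2).2.1⟩
  left_inv l := by
    apply Subtype.ext
    apply Fin.ext
    exact (c_sg l.1 l.2).2.2
  right_inv l := by
    apply Subtype.ext
    apply Fin.ext
    exact (c_si l.1 l.2).2.2
  map_rel_iff' := by
    intro l m
    have h1 : ∀ l m : HH, (⟨⟨sg l.1, (c_sg l.1 l.2).1⟩, (c_sg l.1 l.2).2.1⟩ : HH) =
        ⟨⟨sg m.1, (c_sg m.1 m.2).1⟩, (c_sg m.1 m.2).2.1⟩ → l = m := by
      intro l m h
      have h2 : sg l.1 = sg m.1 := congrArg (fun x : HH => ((x : Fin 112) : ℕ)) h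
      apply Subtype.ext
      apply Fin.ext
      rw [← (c_sg l.1 l.2).2.2, ← (c_sg m.1 m.2).2.2, h2]
    have h3 := c_adj l.1 m.1 l.2 m.2
    have h4 := meet_iff ⟨sg l.1, (c_sg l.1 l.2).1⟩ ⟨sg m.1, (c_sg m.1 m.2).1⟩
    have h5 := meet_iff l.1 m.1
    constructor
    · rintro ⟨ha, hb⟩
      refine ⟨fun he => ha (by subst he; rfl), h5.1 ?_⟩
      rw [h3]
      exact h4.2 hb
    · rintro ⟨ha, hb⟩
      refine ⟨fun he => ha (h1 l m he), h4.1 ?_⟩
      change (ak (sg l.1)).testBit (sg m.1) = true
      rw [← h3]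
      exact h5.2 hb

theorem phi_not_induced : ¬ Induced Inc HH phi := by
  rintro ⟨f, g, hfg, -, hg⟩
  have hm : ∀ l m : Fin 112, (ak (g l)).testBit (g m) = true ↔ (ak l).testBit m = true := by
    intro l m
    rw [meet_iff, meet_iff]
    constructor
    · rintro ⟨q, h1, h2⟩
      refine ⟨f.symm q, ?_, ?_⟩
      · rw [← hfg, Equiv.apply_symm_apply]; exact h1
      · rw [← hfg, Equiv.apply_symm_apply]; exact h2
    · rintro ⟨q, h1, h2⟩
      exact ⟨f q, (hfg _ _).2 h1, (hfg _ _).2 h2⟩
  obtain ⟨l, hl, hne⟩ := c_not (g 8)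
  apply hne
  have h1 := hm 8 l
  have h2 : ((g l : Fin 112) : ℕ) = sg l := congrArg (fun x : Fin 112 => (x : ℕ)) (hg ⟨l, hl⟩)
  rw [h2] at h1
  have h3 : ((8 : Fin 112) : ℕ) = 8 := rfl
  rw [h3] at h1
  rw [Bool.eq_iff_iff]
  exact h1.symm

/-- (1) There is a generalized quadrangle of order `(9, 3)` with a hemisystem `H` (of 56 lines) and
an automorphism of the strongly regular graph of `H` which is not the restriction of a collineation
fixing `H`. (2) So the assertion of the question is false. -/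
theorem result :
    (∃ (P L : Type) (_ : Finite P) (_ : Finite L) (I : P → L → Prop) (H : Set L),
      IsGQ 3 I ∧ IsHemisystem 3 I H ∧ Nat.card H = 56 ∧
        ∃ φ : concurrency I H ≃g concurrency I H, ¬ Induced I H φ) ∧
    ¬ Question := by
  refine ⟨⟨Fin 280, Fin 112, inferInstance, inferInstance, Inc, HH, isGQ, isHemisystem, ?_, phi,
    phi_not_induced⟩, fun h => phi_not_induced (h 3 (by decide) _ _ Inc isGQ HH isHemisystem phi)⟩
  have h := card_cntB 112 (fun l => Hm.testBit l)
  have h2 : cntB (fun l => Hm.testBit l) 112 = 56 := by decide +kernel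
  rw [h2] at h
  exact h

end Pool.Agent.Results.MP_d2fb05_co.NotAllInduced
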